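import Pool.Agent.H27.L1.H34.GA.Targets1
import Pool.Agent.H27.L1.H95.GU.AC1

/-!
# Row ACA of the board ga (MP_52e316_nt): absolute convergence of the operator
-/

set_option autoImplicit false

namespace Pool.Agent.H27.L1.H11.GA

open MeasureTheory Pool.Agent.H27.L1.H34.GM Pool.Agent.H27.L1.H34.GZ Pool.Agent.H27.L1.H34.GU Pool.Agent.H27.L1.H34.GA
open Pool.Agent.H27.L1.H95.GU (aN_smul' aN_pos' det_ne tht_lt)

theorem det_cR {m : ℕ} (α : ZM m) : (cR α).det = ((α.det : ℤ) : ℝ) := by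
  unfold cR
  have := (Int.castRingHom ℝ).map_det α
  rw [RingHom.mapMatrix_apply] at this
  exact this.symm

theorem det_kk {m : ℕ} (r : ℝ) (h : Mat m) (α : ZM m) (g : Mat m) (hα : α.det = 0) :
    (kk r h (cR α) g).det = 0 := by
  unfold kk
  rw [Matrix.det_smul, Matrix.det_mul, Matrix.det_mul, det_cR, hα]
  simp

/-- the non singular matrices -/
theorem aca_two (hTNL : T_TNL) {m N : ℕ} [NeZero N] {T : ℕ → Finset (ZM m)} {D : Set (V m)}
    (hS : SysZ m N T D) {F : Mat m → VN m N → ℂ} {lam : ℕ → ℂ} (hF : HecA m N T F lam)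
    {Ψ : Mat m → ℂ} (hΨ : Dg m Ψ) (hdet : ∀ w : Mat m, w.det = 0 → Ψ w = 0)
    {g : Mat m} {r : ℝ} (x : VN m N) (hg : g.det ≠ 0) (hr : 0 < r) :
    ∫⁻ z in D, ∑' α : ZM m, ENNReal.ofReal ‖Ψ (kk r (mt z) (cR α) g) * F (mt z) (ac N α x)‖
      ∂(hm m) < ⊤ := by
  classical
  have hm1 := hS.one_le
  obtain ⟨K, Nn, C, -, hC, hT⟩ := hTNL m hm1 0
  obtain ⟨C1, hC1, hd⟩ := hΨ.dec Nn
  obtain ⟨B, hB⟩ := hF.bdd
  have hT1 := hT D hS.dom r hr g hg
  have hB0 : 0 ≤ max B 0 := le_max_right _ _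
  refine lt_of_le_of_lt (b := ENNReal.ofReal (C1 * max B 0) * ENNReal.ofReal (C * r ^ K)) ?_
    (ENNReal.mul_lt_top ENNReal.ofReal_lt_top ENNReal.ofReal_lt_top)
  refine le_trans ?_ (mul_le_mul' le_rfl hT1)
  rw [← lintegral_const_mul' _ _ ENNReal.ofReal_ne_top]
  refine setLIntegral_mono' hS.dom.meas fun z hz => ?_
  rw [← ENNReal.tsum_mul_left]
  refine ENNReal.tsum_le_tsum fun α => ?_
  have hzd : (mt z).det ≠ 0 := det_ne hm1 (hS.dom.shell z hz).1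
  by_cases hα : α.det = 0
  · rw [hdet _ (det_kk r (mt z) α g hα), zero_mul, norm_zero, ENNReal.ofReal_zero]
    exact zero_le
  · rw [if_neg hα, ← ENNReal.ofReal_mul (by positivity)]
    apply ENNReal.ofReal_le_ofReal
    rw [norm_mul]
    have h1 := hd (kk r (mt z) (cR α) g)
    have h2 : ‖F (mt z) (ac N α x)‖ ≤ max B 0 := (hB _ _ hzd).trans (le_max_left _ _)
    have h3 : (0 : ℝ) ≤ (1 + sz (kk r (mt z) (cR α) g)) ^ (-(Nn : ℝ)) := by
      apply Real.rpow_nonneg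
      have : 0 ≤ sz (kk r (mt z) (cR α) g) := norm_nonneg _
      linarith
    calc ‖Ψ (kk r (mt z) (cR α) g)‖ * ‖F (mt z) (ac N α x)‖
        ≤ (C1 * (1 + sz (kk r (mt z) (cR α) g)) ^ (-(Nn : ℝ))) * max B 0 :=
          mul_le_mul h1 h2 (norm_nonneg _) (mul_nonneg hC1 h3)
      _ = _ := by ring

/-- decaying functions -/
theorem aca_one (hTHG : T_THG) (hFTA : T_FTA) (hRED : T_RED) (hGSU : T_GSU)
    {m N : ℕ} [NeZero N] {T : ℕ → Finset (ZM m)} {D : Set (V m)}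
    (hS : SysZ m N T D) {F : Mat m → VN m N → ℂ} {lam : ℕ → ℂ} (hF : HecA m N T F lam)
    (hdc : Dcy F) {Ψ : Mat m → ℂ} (hΨ : Dg m Ψ)
    {g : Mat m} {r : ℝ} (x : VN m N) (hg : g.det ≠ 0) (hr : 0 < r) :
    ∫⁻ z in D, ∑' α : ZM m, ENNReal.ofReal ‖Ψ (kk r (mt z) (cR α) g) * F (mt z) (ac N α x)‖
      ∂(hm m) < ⊤ := by
  have hm1 := hS.one_le
  have hag : 0 < aN g := aN_pos' hg
  have hTm : Measurable fun z : V m => Tht (mt z) := Pool.Agent.H27.L1.H90.GZ.measurable_tht hGSU m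
  have hfin := hFTA m N T D hS F lam hF hdc
  obtain ⟨N0, hN0⟩ := hTHG m hm1
  obtain ⟨C, hC, hT⟩ := hN0 r hr
  obtain ⟨C1, hC1, hd⟩ := hΨ.dec N0
  have hg1 : aN ((aN g)⁻¹ • g) = 1 := by
    rw [aN_smul' hm1 _ (inv_pos.2 hag), inv_mul_cancel₀ hag.ne']
  have hgd : ((aN g)⁻¹ • g).det ≠ 0 := det_ne hm1 hg1.ge
  have hkk : ∀ (h α : Mat m), kk r h α ((aN g)⁻¹ • g) = kk r h α g := by
    intro h α
    unfold kk
    rw [hg1, Matrix.mul_smul, smul_smul, div_one, ← div_eq_mul_inv]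
  have he : (1 : ℝ) < Real.exp 1 := Real.one_lt_exp_iff.2 one_pos
  -- the pointwise bound
  have hpt : ∀ z ∈ D, ∑' α : ZM m, ENNReal.ofReal
      ‖Ψ (kk r (mt z) (cR α) g) * F (mt z) (ac N α x)‖ ≤
      (ENNReal.ofReal C1 * ENNReal.ofReal C * Tht ((aN g)⁻¹ • g)) *
        ∑ y : VN m N, Tht (mt z) * ENNReal.ofReal ‖F (mt z) y‖ := by
    intro z hz
    obtain ⟨h1, h2⟩ := hS.dom.shell z hz
    have h3 := hT (mt z) ((aN g)⁻¹ • g) h1 h2 hg1.ge (by rw [hg1]; exact he)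
    calc ∑' α : ZM m, ENNReal.ofReal ‖Ψ (kk r (mt z) (cR α) g) * F (mt z) (ac N α x)‖
        ≤ ∑' α : ZM m, ENNReal.ofReal C1 * (ENNReal.ofReal
            ((1 + sz (kk r (mt z) (cR α) ((aN g)⁻¹ • g))) ^ (-(N0 : ℝ))) *
            ∑ y : VN m N, ENNReal.ofReal ‖F (mt z) y‖) := by
          refine ENNReal.tsum_le_tsum fun α => ?_
          rw [hkk, norm_mul, ENNReal.ofReal_mul (norm_nonneg _), ← mul_assoc]
          refine mul_le_mul' ?_ ?_
          · rw [← ENNReal.ofReal_mul hC1]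
            exact ENNReal.ofReal_le_ofReal (hd _)
          · exact Finset.single_le_sum (f := fun y : VN m N => ENNReal.ofReal ‖F (mt z) y‖)
              (fun _ _ => zero_le) (Finset.mem_univ (ac N α x))
      _ = ENNReal.ofReal C1 * ((∑' α : ZM m, ENNReal.ofReal
            ((1 + sz (kk r (mt z) (cR α) ((aN g)⁻¹ • g))) ^ (-(N0 : ℝ)))) *
            ∑ y : VN m N, ENNReal.ofReal ‖F (mt z) y‖) := by
          rw [ENNReal.tsum_mul_left, ENNReal.tsum_mul_right]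
      _ ≤ ENNReal.ofReal C1 * ((ENNReal.ofReal C * Tht (mt z) * Tht ((aN g)⁻¹ • g)) *
            ∑ y : VN m N, ENNReal.ofReal ‖F (mt z) y‖) :=
          mul_le_mul' le_rfl (mul_le_mul' h3 le_rfl)
      _ = (ENNReal.ofReal C1 * ENNReal.ofReal C * Tht ((aN g)⁻¹ • g)) *
            ∑ y : VN m N, Tht (mt z) * ENNReal.ofReal ‖F (mt z) y‖ := by
          rw [← Finset.mul_sum]
          ring
  have hFm : ∀ y : VN m N, AEMeasurable (fun z : V m => Tht (mt z) *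
      ENNReal.ofReal ‖F (mt z) y‖) ((hm m).restrict D) := by
    intro y
    refine hTm.aemeasurable.mul ?_
    have hc : ContinuousOn (fun z : V m => F (mt z) y) D := by
      refine (hF.cont y).comp (f := fun z : V m => mt z) ?_ ?_
      · exact continuous_id.continuousOn
      · intro z hz
        exact det_ne hm1 (hS.dom.shell z hz).1
    exact (hc.aemeasurable hS.dom.meas).norm.ennreal_ofReal
  have htop : ENNReal.ofReal C1 * ENNReal.ofReal C * Tht ((aN g)⁻¹ • g) < ⊤ :=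
    ENNReal.mul_lt_top (ENNReal.mul_lt_top ENNReal.ofReal_lt_top ENNReal.ofReal_lt_top)
      (tht_lt hRED hgd)
  calc ∫⁻ z in D, ∑' α : ZM m, ENNReal.ofReal
        ‖Ψ (kk r (mt z) (cR α) g) * F (mt z) (ac N α x)‖ ∂(hm m)
      ≤ ∫⁻ z in D, (ENNReal.ofReal C1 * ENNReal.ofReal C * Tht ((aN g)⁻¹ • g)) *
          ∑ y : VN m N, Tht (mt z) * ENNReal.ofReal ‖F (mt z) y‖ ∂(hm m) :=
        setLIntegral_mono' hS.dom.meas hpt
    _ = (ENNReal.ofReal C1 * ENNReal.ofReal C * Tht ((aN g)⁻¹ • g)) *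
          ∑ y : VN m N, ∫⁻ z in D, Tht (mt z) * ENNReal.ofReal ‖F (mt z) y‖ ∂(hm m) := by
        rw [lintegral_const_mul' _ _ htop.ne, lintegral_finsetSum' _ fun y _ => hFm y]
    _ < ⊤ := ENNReal.mul_lt_top htop hfin

theorem pf_ACA : T_THG → T_FTA → T_TNL → T_RED → T_GSU → T_ACA := by
  intro hTHG hFTA hTNL hRED hGSU m N _ T D hS F lam hF Ψ hΨ hAdm g r x hg hr
  rcases hAdm with hdc | hdet
  · exact aca_one hTHG hFTA hRED hGSU hS hF hdc hΨ x hg hr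
  · exact aca_two hTNL hS hF hΨ hdet x hg hr

end Pool.Agent.H27.L1.H11.GA
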